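import Pool.Agent.K3h8.GG.Stm3

set_option autoImplicit false

/-! The number of rows of a highest weight vector in the symmetric powers of the exterior square is even (job PAR). -/

open MvPolynomial Finset

namespace Pool.Agent.K3h21.GGpar

open Pool.Agent.K3h8.GG

theorem AX_swap {d : ℕ} (b c : Fin (d + 1)) : AX (b, c) = - AX (c, b) := by
  unfold AX
  simp only [Prod.swap_prod_mk]
  ring

/-- the polynomial of the words beginning with the pair `p` -/
noncomputable def GG {m d : ℕ} (F : (Fin (m + 1) → Fin (d + 1) × Fin (d + 1)) → ℚ) (p : Fin (d + 1) × Fin (d + 1)) :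
    MvPolynomial (Fin (d + 1) × Fin (d + 1)) ℚ :=
  ∑ v' : Fin m → Fin (d + 1) × Fin (d + 1), C (F (Fin.cons p v')) * ∏ i, AX (v' i)

theorem F_cons_swap {m d : ℕ} {F : (Fin (m + 1) → Fin (d + 1) × Fin (d + 1)) → ℚ} (hF : Sk F) (b c : Fin (d + 1))
    (v' : Fin m → Fin (d + 1) × Fin (d + 1)) :
    F (Fin.cons (b, c) v') = - F (Fin.cons (c, b) v') := by
  have h := hF.1 (Fin.cons (c, b) v') 0
  rw [Fin.cons_zero, Fin.update_cons_zero, Prod.swap_prod_mk] at h
  exact h

theorem GG_swap {m d : ℕ} {F : (Fin (m + 1) → Fin (d + 1) × Fin (d + 1)) → ℚ} (hF : Sk F) (b c : Fin (d + 1)) :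
    GG F (b, c) = - GG F (c, b) := by
  unfold GG
  rw [← Finset.sum_neg_distrib]
  refine Finset.sum_congr rfl fun v' _ => ?_
  rw [F_cons_swap hF b c v', map_neg, neg_mul]

theorem sum_cons {m : ℕ} {L M : Type*} [Fintype L] [AddCommMonoid M] (f : (Fin (m + 1) → L) → M) :
    ∑ v, f v = ∑ p : L, ∑ v' : Fin m → L, f (Fin.cons p v') := by
  rw [← (Fin.consEquiv (fun _ : Fin (m + 1) => L)).sum_comp f, Fintype.sum_prod_type]
  rfl

/-- the coefficient of the hypothesis -/
noncomputable def tm {m d : ℕ} (F : (Fin (m + 1) → Fin (d + 1) × Fin (d + 1)) → ℚ) (a x : Fin (d + 1)) (i : Fin (m + 1))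
    (v : Fin (m + 1) → Fin (d + 1) × Fin (d + 1)) : ℚ :=
  (if (v i).1 = x then F (Function.update v i (a, (v i).2)) else 0) +
    (if (v i).2 = x then F (Function.update v i ((v i).1, a)) else 0)

theorem tm_comp {m d : ℕ} {F : (Fin (m + 1) → Fin (d + 1) × Fin (d + 1)) → ℚ} (hF : Sk F) (a x : Fin (d + 1))
    (i : Fin (m + 1)) (v : Fin (m + 1) → Fin (d + 1) × Fin (d + 1)) :
    tm F a x i (v ∘ Equiv.swap 0 i) = tm F a x 0 v := by
  unfold tm
  have h1 : (v ∘ Equiv.swap 0 i) i = v 0 := by
    rw [Function.comp_apply, Equiv.swap_apply_right]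
  have h2 : ∀ y, Function.update (v ∘ Equiv.swap 0 i) i y = Function.update v 0 y ∘ Equiv.swap 0 i := by
    intro y
    rw [Function.update_comp_equiv, Equiv.symm_swap, Equiv.swap_apply_left]
  rw [h1, h2, h2, hF.2, hF.2]

theorem T_eq {m d : ℕ} {F : (Fin (m + 1) → Fin (d + 1) × Fin (d + 1)) → ℚ} (hF : Sk F) (a x : Fin (d + 1))
    (i : Fin (m + 1)) :
    ∑ v, C (tm F a x i v) * ∏ j, AX (v j) = ∑ v, C (tm F a x 0 v) * ∏ j, AX (v j) := by
  symm
  refine Fintype.sum_equiv (Equiv.arrowCongr (Equiv.swap 0 i) (Equiv.refl _)) _ _ fun v => ?_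
  have h1 : (Equiv.arrowCongr (Equiv.swap 0 i) (Equiv.refl (Fin (d + 1) × Fin (d + 1)))) v = v ∘ Equiv.swap 0 i := by
    ext j <;> simp
  rw [h1, tm_comp hF]
  congr 1
  exact (Equiv.prod_comp (Equiv.swap 0 i) (fun j => AX (v j))).symm

theorem T_zero {m d : ℕ} {F : (Fin (m + 1) → Fin (d + 1) × Fin (d + 1)) → ℚ} (hF : Sk F) (a x : Fin (d + 1)) :
    ∑ v, C (tm F a x 0 v) * ∏ j, AX (v j) = 2 * ∑ c, AX (x, c) * GG F (a, c) := by
  rw [sum_cons]
  have h1 : ∀ p : Fin (d + 1) × Fin (d + 1), ∑ v' : Fin m → Fin (d + 1) × Fin (d + 1),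
      C (tm F a x 0 (Fin.cons p v')) * ∏ j, AX ((Fin.cons p v' : Fin (m + 1) → Fin (d + 1) × Fin (d + 1)) j) =
      (if p.1 = x then AX p * GG F (a, p.2) else 0) + (if p.2 = x then AX p * GG F (p.1, a) else 0) := by
    intro p
    unfold GG tm
    simp only [Fin.cons_zero, Fin.update_cons_zero, Fin.prod_univ_succ, Fin.cons_succ]
    by_cases h1 : p.1 = x <;> by_cases h2 : p.2 = x <;>
      simp only [h1, h2, if_true, if_false, map_add, map_zero, add_zero, zero_add, zero_mul, Finset.sum_const_zero,
        Finset.mul_sum]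
    · rw [← Finset.sum_add_distrib]
      refine Finset.sum_congr rfl fun v' _ => ?_
      ring
    · refine Finset.sum_congr rfl fun v' _ => ?_
      ring
    · refine Finset.sum_congr rfl fun v' _ => ?_
      ring
  rw [Finset.sum_congr rfl fun p _ => h1 p, Finset.sum_add_distrib]
  have h2 : ∑ p : Fin (d + 1) × Fin (d + 1), (if p.1 = x then AX p * GG F (a, p.2) else 0) =
      ∑ c, AX (x, c) * GG F (a, c) := by
    rw [Fintype.sum_prod_type]
    rw [Finset.sum_eq_single x]
    · simp
    · intro b _ hb
      simp [hb]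
    · simp
  have h3 : ∑ p : Fin (d + 1) × Fin (d + 1), (if p.2 = x then AX p * GG F (p.1, a) else 0) =
      ∑ c, AX (x, c) * GG F (a, c) := by
    rw [Fintype.sum_prod_type]
    refine Finset.sum_congr rfl fun b _ => ?_
    rw [Finset.sum_eq_single x]
    · simp only [if_true]
      rw [AX_swap b x, GG_swap hF b a]
      ring
    · intro c _ hc
      simp [hc]
    · simp
  rw [h2, h3]
  ring

theorem t_PAR (h1 : S_PDET) (h2 : S_PINJ) : S_PAR := by
  intro k d a F hF ha hs he hx
  cases k with
  | zero =>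
    funext v
    by_contra hv
    obtain ⟨i, _⟩ := he v hv
    exact i.elim0
  | succ m =>
    have e1 : ∀ x, x < a → ∑ c, AX (x, c) * GG F (a, c) = 0 := by
      intro x hxa
      have e2 : ∑ i, ∑ v, C (tm F a x i v) * ∏ j, AX (v j) = 0 := by
        rw [Finset.sum_comm]
        refine Finset.sum_eq_zero fun v _ => ?_
        rw [← Finset.sum_mul, ← map_sum]
        have : ∑ i, tm F a x i v = 0 := hx x hxa v
        rw [this, map_zero, zero_mul]
      rw [Finset.sum_congr rfl fun i _ => (T_eq hF a x i).trans (T_zero hF a x), Finset.sum_const, Finset.card_univ,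
        Fintype.card_fin, nsmul_eq_mul] at e2
      rcases mul_eq_zero.1 e2 with h | h
      · exfalso
        exact (Nat.cast_ne_zero.2 (Nat.succ_ne_zero m)) h
      · rcases mul_eq_zero.1 h with h | h
        · exfalso
          exact two_ne_zero h
        · exact h
    have e3 : ∀ c, ¬ c < a → GG F (a, c) = 0 := by
      intro c hc
      rcases eq_or_lt_of_le (not_lt.1 hc) with h | h
      · rw [← h]
        have := GG_swap hF a a
        have h4 : (2 : MvPolynomial (Fin (d + 1) × Fin (d + 1)) ℚ) * GG F (a, a) = 0 := by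
          linear_combination this
        rcases mul_eq_zero.1 h4 with h5 | h5
        · exact absurd h5 two_ne_zero
        · exact h5
      · unfold GG
        refine Finset.sum_eq_zero fun v' _ => ?_
        have : F (Fin.cons (a, c) v') = 0 := by
          by_contra hne
          have := (hs _ hne 0).2
          rw [Fin.cons_zero] at this
          exact absurd this (not_le.2 h)
        rw [this, map_zero, zero_mul]
    have e4 : ∀ c, GG F (a, c) = 0 := by
      set M : Matrix (Fin (a : ℕ)) (Fin (a : ℕ)) (MvPolynomial (Fin (d + 1) × Fin (d + 1)) ℚ) :=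
        Matrix.of fun x c : Fin (a : ℕ) =>
          AX ((Fin.castLE a.isLt.le x : Fin (d + 1)), (Fin.castLE a.isLt.le c : Fin (d + 1))) with hM
      have hdet : M.det ≠ 0 := h1 d a ha
      have hmul : M.mulVec (fun c => GG F (a, (Fin.castLE a.isLt.le c : Fin (d + 1)))) = 0 := by
        funext x
        have hxa : (Fin.castLE a.isLt.le x : Fin (d + 1)) < a := by
          rw [Fin.lt_def, Fin.val_castLE]
          exact x.isLt
        have e5 := e1 _ hxa
        rw [Matrix.mulVec, dotProduct, Pi.zero_apply]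
        rw [← e5]
        simp only [hM, Matrix.of_apply]
        refine Finset.sum_of_injOn (fun c => (Fin.castLE a.isLt.le c : Fin (d + 1)))
          (fun c _ c' _ h => Fin.castLE_injective _ h) (fun c _ => by simp) (fun c _ hc => ?_) (fun c _ => rfl)
        by_cases hca : c < a
        · exfalso
          apply hc
          refine ⟨⟨c, hca⟩, by simp, ?_⟩
          ext
          simp
        · rw [e3 c hca, mul_zero]
      have h0 := Matrix.eq_zero_of_mulVec_eq_zero hdet hmul
      intro c
      by_cases hca : c < a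
      · have := congrFun h0 ⟨c, hca⟩
        exact this
      · exact e3 c hca
    have e6 : ∀ c v', F (Fin.cons (a, c) v') = 0 := by
      intro c v'
      have h3 := h2 m d (fun v' => F (Fin.cons (a, c) v')) ⟨fun v i => by
          have h4 := hF.1 (Fin.cons (a, c) v) i.succ
          rw [Fin.cons_succ, ← Fin.cons_update] at h4
          exact h4, fun v σ => by
          have h4 := hF.2 (Fin.cons (a, c) v) (Equiv.Perm.decomposeFin.symm (0, σ))
          refine Eq.trans ?_ h4
          beta_reduce
          congr 1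
          funext j
          refine Fin.cases ?_ (fun j => ?_) j
          · simp
          · simp⟩ (e4 c)
      exact congrFun h3 v'
    funext v
    by_contra hv
    rw [Pi.zero_apply] at hv
    obtain ⟨i, hi⟩ := he v hv
    set w := v ∘ Equiv.swap 0 i with hw
    have h5 : F w = F v := hF.2 v _
    have h6 : w 0 = v i := by
      rw [hw, Function.comp_apply, Equiv.swap_apply_left]
    have h7 : w = Fin.cons (w 0) (Fin.tail w) := (Fin.cons_self_tail w).symm
    apply hv
    rw [← h5, h7, h6]
    rcases hi with hi | hi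
    · have : v i = (a, (v i).2) := Prod.ext hi rfl
      rw [this]
      exact e6 _ _
    · have : v i = ((v i).1, a) := Prod.ext rfl hi
      rw [this, F_cons_swap hF, e6, neg_zero]

end Pool.Agent.K3h21.GGpar
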